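import Mathlib
import Pool.Agent.Run7.h723.OG.Iface

set_option autoImplicit false

/-! Piece GAME of project OG (helper723): Minimizer's strategy in the oriented domination game. -/

namespace Pool.Agent.Run7.h828.OG

open Pool.H723.OG

section
variable {V : Type} [DecidableEq V]

def Legal (H : SimpleGraph V) (A : Finset (V × V)) : Prop :=
  ∀ u v : V, (u, v) ∈ A → H.Adj u v ∧ (v, u) ∉ A

def gp (P : Finset V) (π : V → V) (A : Finset (V × V)) : Finset V :=
  P.filter (fun v => (π v, v) ∈ A)

def bp (P : Finset V) (π : V → V) (A : Finset (V × V)) : Finset V :=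
  P.filter (fun v => (v, π v) ∈ A)

def Thr (Q : Finset V) (α β : V → V) (A : Finset (V × V)) (v : V) : Prop :=
  v ∈ Q ∧ ((v, α v) ∈ A ∨ (v, β v) ∈ A) ∧ (α v, v) ∉ A ∧ (β v, v) ∉ A

def FF (P : Finset V) (π : V → V) (A : Finset (V × V)) : Prop :=
  (bp P π A).card + 1 ≤ (gp P π A).card ∨ (bp P π A).card + (gp P π A).card = P.card

def Pos (H : SimpleGraph V) (P Q : Finset V) (π α β : V → V) : Set (Finset (V × V)) :=
  {A | Legal H A ∧ (bp P π A).card ≤ (gp P π A).card ∧
    ((Odd A.card ∧ (∀ v, ¬ Thr Q α β A v) ∧ FF P π A) ∨
     (Even A.card ∧ ((∀ v, ¬ Thr Q α β A v) ∨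
        ∃ v, Thr Q α β A v ∧ (∀ u, Thr Q α β A u → u = v) ∧
          (((α v, v) ∉ A ∧ (v, α v) ∉ A) ∨ ((β v, v) ∉ A ∧ (v, β v) ∉ A)) ∧ FF P π A)))}

theorem bp_ins {P : Finset V} {π : V → V} {A : Finset (V × V)} {a : V × V}
    (h : ∀ x ∈ P, (x, π x) ≠ a) : bp P π (insert a A) = bp P π A := by
  unfold bp
  apply Finset.filter_congr
  intro x hx
  simp only [Finset.mem_insert]
  constructor
  · rintro (h1 | h1)
    · exact absurd h1 (h x hx)
    · exact h1
  · exact fun h1 => Or.inr h1

theorem gp_ins {P : Finset V} {π : V → V} {A : Finset (V × V)} {a : V × V}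
    (h : ∀ x ∈ P, (π x, x) ≠ a) : gp P π (insert a A) = gp P π A := by
  unfold gp
  apply Finset.filter_congr
  intro x hx
  simp only [Finset.mem_insert]
  constructor
  · rintro (h1 | h1)
    · exact absurd h1 (h x hx)
    · exact h1
  · exact fun h1 => Or.inr h1

theorem FF_ins {P : Finset V} {π : V → V} {A : Finset (V × V)} {a : V × V}
    (h : ∀ x ∈ P, (x, π x) ≠ a) (h' : ∀ x ∈ P, (π x, x) ≠ a) (hF : FF P π A) :
    FF P π (insert a A) := by
  unfold FF
  rw [bp_ins h, gp_ins h']
  exact hF

theorem bp_gp_le {H : SimpleGraph V} {P : Finset V} {π : V → V} {A : Finset (V × V)}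
    (hL : Legal H A) : (bp P π A).card + (gp P π A).card ≤ P.card := by
  have hd : Disjoint (bp P π A) (gp P π A) := by
    rw [Finset.disjoint_left]
    intro x hx hx'
    unfold bp at hx
    unfold gp at hx'
    rw [Finset.mem_filter] at hx hx'
    exact (hL _ _ hx.2).2 hx'.2
  rw [← Finset.card_union_of_disjoint hd]
  apply Finset.card_le_card
  intro x hx
  rw [Finset.mem_union] at hx
  unfold bp gp at hx
  rcases hx with hx | hx
  · exact (Finset.mem_filter.1 hx).1
  · exact (Finset.mem_filter.1 hx).1

/-- if some designated edge of `P` is free then the sum is strictly smaller -/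
theorem bp_gp_lt {H : SimpleGraph V} {P : Finset V} {π : V → V} {A : Finset (V × V)}
    (hL : Legal H A) {x : V} (hx : x ∈ P) (h1 : (x, π x) ∉ A) (h2 : (π x, x) ∉ A) :
    (bp P π A).card + (gp P π A).card < P.card := by
  have hd : Disjoint (bp P π A) (gp P π A) := by
    rw [Finset.disjoint_left]
    intro x hx hx'
    unfold bp at hx
    unfold gp at hx'
    rw [Finset.mem_filter] at hx hx'
    exact (hL _ _ hx.2).2 hx'.2
  rw [← Finset.card_union_of_disjoint hd]
  apply Finset.card_lt_card
  rw [Finset.ssubset_iff_of_subset]
  · refine ⟨x, hx, ?_⟩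
    rw [Finset.mem_union]
    unfold bp gp
    rw [Finset.mem_filter, Finset.mem_filter]
    rintro (h | h)
    · exact h1 h.2
    · exact h2 h.2
  · intro x hx
    rw [Finset.mem_union] at hx
    unfold bp gp at hx
    rcases hx with hx | hx
    · exact (Finset.mem_filter.1 hx).1
    · exact (Finset.mem_filter.1 hx).1

theorem bp_gp_eq {H : SimpleGraph V} {P : Finset V} {π : V → V} {A : Finset (V × V)}
    (hL : Legal H A) (h : ∀ x ∈ P, (x, π x) ∈ A ∨ (π x, x) ∈ A) :
    (bp P π A).card + (gp P π A).card = P.card := by
  apply le_antisymm (bp_gp_le hL)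
  have : P ⊆ bp P π A ∪ gp P π A := by
    intro x hx
    rw [Finset.mem_union]
    unfold bp gp
    rw [Finset.mem_filter, Finset.mem_filter]
    rcases h x hx with h1 | h1
    · exact Or.inl ⟨hx, h1⟩
    · exact Or.inr ⟨hx, h1⟩
  exact (Finset.card_le_card this).trans (Finset.card_union_le _ _)

theorem legal_ins {H : SimpleGraph V} {A : Finset (V × V)} (hL : Legal H A) {u v : V}
    (ha : H.Adj u v) (h1 : (u, v) ∉ A) (h2 : (v, u) ∉ A) : Legal H (insert (u, v) A) := by
  intro x y hxy
  rw [Finset.mem_insert] at hxy
  rcases hxy with hxy | hxy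
  · obtain ⟨rfl, rfl⟩ := Prod.mk.inj hxy
    refine ⟨ha, ?_⟩
    rw [Finset.mem_insert]
    rintro (h | h)
    · exact ha.ne (Prod.mk.inj h).2
    · exact h2 h
  · refine ⟨(hL x y hxy).1, ?_⟩
    rw [Finset.mem_insert]
    rintro (h | h)
    · obtain ⟨rfl, rfl⟩ := Prod.mk.inj h
      exact h2 hxy
    · exact (hL x y hxy).2 h

/-- an arc which is not `(x, α x)` or `(x, β x)` with `x ∈ Q` makes no new threat -/
theorem thr_ins {Q : Finset V} {α β : V → V} {A : Finset (V × V)} {a : V × V}
    (h : ∀ x ∈ Q, (x, α x) ≠ a ∧ (x, β x) ≠ a) {v : V} (ht : Thr Q α β (insert a A) v) :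
    Thr Q α β A v := by
  obtain ⟨h1, h2, h3, h4⟩ := ht
  refine ⟨h1, ?_, fun h' => h3 (Finset.mem_insert_of_mem h'),
    fun h' => h4 (Finset.mem_insert_of_mem h')⟩
  rcases h2 with h2 | h2
  · rw [Finset.mem_insert] at h2
    rcases h2 with h2 | h2
    · exact absurd h2 (h v h1).1
    · exact Or.inl h2
  · rw [Finset.mem_insert] at h2
    rcases h2 with h2 | h2
    · exact absurd h2 (h v h1).2
    · exact Or.inr h2

end

theorem final {V : Type} [Fintype V] [DecidableEq V] (H : SimpleGraph V) (D P Q W R : Finset V)
    (π α β m : V → V) (k : ℕ)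
    (hc : ∀ v, v ∈ D ∨ v ∈ P ∨ v ∈ Q ∨ v ∈ W ∨ v ∈ R)
    (hπ : ∀ v ∈ P, π v ∈ D ∧ H.Adj (π v) v)
    (hαβ : ∀ v ∈ Q, α v ∈ D ∧ β v ∈ D ∧ α v ≠ β v ∧ H.Adj (α v) v ∧ H.Adj (β v) v)
    (hm : ∀ w ∈ W, m w ∈ W ∧ m (m w) = w ∧ H.Adj w (m w))
    (hk : 2 * D.card + P.card + W.card + 2 * R.card ≤ 2 * k + 1)
    (A : Finset (V × V)) (hL : Legal H A) (hE : (bp P π A).card ≤ (gp P π A).card)
    (hT : ∀ v, ¬ Thr Q α β A v)
    (hall : ∀ u v : V, H.Adj u v → (u, v) ∈ A ∨ (v, u) ∈ A) :
    ∃ S : Finset V, S.card ≤ k ∧ ∀ v : V, v ∉ S → ∃ u ∈ S, (u, v) ∈ A := by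
  have h1 : 2 * (bp P π A).card ≤ P.card := by
    have := bp_gp_le (P := P) (π := π) hL
    omega
  set WA : Finset V := W.filter (fun w => (w, m w) ∈ A) with hWA
  have h2 : 2 * WA.card ≤ W.card := by
    have hinj : (WA.image m).card = WA.card := by
      apply Finset.card_image_of_injOn
      intro x hx y hy hxy
      have hx' := (hm x (Finset.mem_filter.1 (Finset.mem_coe.1 hx)).1).2.1
      have hy' := (hm y (Finset.mem_filter.1 (Finset.mem_coe.1 hy)).1).2.1
      have hxy' : m x = m y := hxy
      rw [← hx', hxy', hy']
    have hd : Disjoint WA (WA.image m) := by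
      rw [Finset.disjoint_left]
      intro x hx hx'
      rw [Finset.mem_image] at hx'
      obtain ⟨y, hy, rfl⟩ := hx'
      have hyW := (Finset.mem_filter.1 hy)
      have hxW := (Finset.mem_filter.1 hx)
      have := (hm y hyW.1).2.1
      rw [this] at hxW
      exact (hL _ _ hyW.2).2 hxW.2
    have hsub : WA ∪ WA.image m ⊆ W := by
      intro x hx
      rw [Finset.mem_union] at hx
      rcases hx with hx | hx
      · exact (Finset.mem_filter.1 hx).1
      · rw [Finset.mem_image] at hx
        obtain ⟨y, hy, rfl⟩ := hx
        exact (hm y (Finset.mem_filter.1 hy).1).1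
    have h3 := Finset.card_le_card hsub
    rw [Finset.card_union_of_disjoint hd, hinj] at h3
    omega
  refine ⟨D ∪ bp P π A ∪ WA ∪ R, ?_, ?_⟩
  · have e1 := Finset.card_union_le (D ∪ bp P π A ∪ WA) R
    have e2 := Finset.card_union_le (D ∪ bp P π A) WA
    have e3 := Finset.card_union_le D (bp P π A)
    omega
  · intro v hv
    simp only [Finset.mem_union, not_or] at hv
    obtain ⟨⟨⟨hvD, hvB⟩, hvW⟩, hvR⟩ := hv
    rcases hc v with h | h | h | h | h
    · exact absurd h hvD
    · obtain ⟨hp1, hp2⟩ := hπ v h
      refine ⟨π v, by simp [hp1], ?_⟩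
      rcases hall _ _ hp2 with h3 | h3
      · exact h3
      · exact absurd (Finset.mem_filter.2 ⟨h, h3⟩) hvB
    · obtain ⟨ha1, hb1, _, ha2, hb2⟩ := hαβ v h
      by_contra hne
      push Not at hne
      have g1 : (α v, v) ∉ A := hne (α v) (by simp [ha1])
      have g2 : (β v, v) ∉ A := hne (β v) (by simp [hb1])
      rcases hall _ _ ha2 with h3 | h3
      · exact g1 h3
      · exact hT v ⟨h, Or.inl h3, g1, g2⟩
    · obtain ⟨hw1, hw2, hw3⟩ := hm v h
      rcases hall _ _ hw3 with h3 | h3
      · exact absurd (Finset.mem_filter.2 ⟨h, h3⟩) hvW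
      · refine ⟨m v, ?_, h3⟩
        have : m v ∈ WA := Finset.mem_filter.2 ⟨hw1, by rw [hw2]; exact h3⟩
        simp [this]
    · exact absurd h hvR

theorem game (V : Type) [Fintype V] [DecidableEq V] (H : SimpleGraph V) (D P Q W R : Finset V)
    (π α β m : V → V) (k : ℕ)
    (hc : ∀ v, v ∈ D ∨ v ∈ P ∨ v ∈ Q ∨ v ∈ W ∨ v ∈ R)
    (hDP : Disjoint D P) (hDQ : Disjoint D Q) (hPQ : Disjoint P Q)
    (hπ : ∀ v ∈ P, π v ∈ D ∧ H.Adj (π v) v)
    (hαβ : ∀ v ∈ Q, α v ∈ D ∧ β v ∈ D ∧ α v ≠ β v ∧ H.Adj (α v) v ∧ H.Adj (β v) v)
    (hm : ∀ w ∈ W, m w ∈ W ∧ m (m w) = w ∧ H.Adj w (m w))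
    (hk : 2 * D.card + P.card + W.card + 2 * R.card ≤ 2 * k + 1) :
    Le H k := by
  have dDP : ∀ {x}, x ∈ D → x ∈ P → False := fun h1 h2 => Finset.disjoint_left.1 hDP h1 h2
  have dDQ : ∀ {x}, x ∈ D → x ∈ Q → False := fun h1 h2 => Finset.disjoint_left.1 hDQ h1 h2
  have dPQ : ∀ {x}, x ∈ P → x ∈ Q → False := fun h1 h2 => Finset.disjoint_left.1 hPQ h1 h2
  refine ⟨Pos H P Q π α β, ?_, ?_⟩
  · refine ⟨fun u v h => absurd h (Finset.notMem_empty _), ?_, Or.inr ⟨by simp, Or.inl ?_⟩⟩
    · simp [bp, gp]
    · rintro v ⟨_, h, _⟩
      rcases h with h | h <;> exact absurd h (Finset.notMem_empty _)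
  · rintro A ⟨hL, hE, hA⟩
    refine ⟨?_, ?_, ?_⟩
    · -- all edges oriented
      intro hall
      apply final H D P Q W R π α β m k hc hπ hαβ hm hk A hL hE ?_ hall
      rcases hA with ⟨_, hT, _⟩ | ⟨_, hT | ⟨v, hv, _, hun, _⟩⟩
      · exact hT
      · exact hT
      · exfalso
        obtain ⟨_, _, _, ha2, hb2⟩ := hαβ v hv.1
        rcases hun with ⟨g1, g2⟩ | ⟨g1, g2⟩
        · rcases hall _ _ ha2 with h | h
          · exact g1 h
          · exact g2 h
        · rcases hall _ _ hb2 with h | h
          · exact g1 h
          · exact g2 h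
    · -- Minimizer moves
      intro hnall heven
      rcases hA with ⟨hodd, _, _⟩ | ⟨_, hT⟩
      · exact absurd heven (Nat.not_even_iff_odd.2 hodd)
      have hodd' : ∀ a : V × V, a ∉ A → Odd (insert a A).card := by
        intro a ha
        rw [Finset.card_insert_of_notMem ha]
        exact heven.add_one
      rcases hT with hT | ⟨v, hv, huniq, hun, hF⟩
      · -- no threat
        by_cases hfree : ∃ x ∈ P, (x, π x) ∉ A ∧ (π x, x) ∉ A
        · obtain ⟨x, hx, hx1, hx2⟩ := hfree
          obtain ⟨hp1, hp2⟩ := hπ x hx
          refine ⟨π x, x, hp2, hx2, hx1, legal_ins hL hp2 hx2 hx1, ?_, ?_⟩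
          · have hb : bp P π (insert (π x, x) A) = bp P π A := by
              apply bp_ins
              intro y hy h
              have := (Prod.mk.inj h).1
              subst this
              exact dDP hp1 hy
            rw [hb]
            refine hE.trans (Finset.card_le_card ?_)
            intro y hy
            unfold gp at hy ⊢
            rw [Finset.mem_filter] at hy ⊢
            exact ⟨hy.1, Finset.mem_insert_of_mem hy.2⟩
          · left
            refine ⟨hodd' _ hx2, ?_, ?_⟩
            · intro z hz
              refine hT z (thr_ins ?_ hz)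
              intro y hy
              constructor
              · intro h
                have := (Prod.mk.inj h).1
                subst this
                exact dDQ hp1 hy
              · intro h
                have := (Prod.mk.inj h).1
                subst this
                exact dDQ hp1 hy
            · left
              have hb : bp P π (insert (π x, x) A) = bp P π A := by
                apply bp_ins
                intro y hy h
                have := (Prod.mk.inj h).1
                subst this
                exact dDP hp1 hy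
              rw [hb]
              have hsub : insert x (gp P π A) ⊆ gp P π (insert (π x, x) A) := by
                intro y hy
                rw [Finset.mem_insert] at hy
                unfold gp at hy ⊢
                rw [Finset.mem_filter] at hy ⊢
                rcases hy with rfl | hy
                · exact ⟨hx, Finset.mem_insert_self _ _⟩
                · exact ⟨hy.1, Finset.mem_insert_of_mem hy.2⟩
              have hnot : x ∉ gp P π A := by
                unfold gp
                rw [Finset.mem_filter]
                exact fun h => hx2 h.2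
              have := Finset.card_le_card hsub
              rw [Finset.card_insert_of_notMem hnot] at this
              omega
        · -- all designated edges of P are oriented
          push Not at hfree
          have hor : ∀ x ∈ P, (x, π x) ∈ A ∨ (π x, x) ∈ A := by
            intro x hx
            by_cases h : (x, π x) ∈ A
            · exact Or.inl h
            · exact Or.inr (hfree x hx h)
          have hFF : FF P π A := Or.inr (bp_gp_eq hL hor)
          push Not at hnall
          obtain ⟨u, v, huv, h1, h2⟩ := hnall
          -- general: playing (a, b) with {a,b} = {u,v}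
          have key : ∀ a b : V, H.Adj a b → (a, b) ∉ A → (b, a) ∉ A →
              (b ∉ D ∨ a ∈ D) → insert (a, b) A ∈ Pos H P Q π α β := by
            intro a b hab g1 g2 hd
            have hb1 : ∀ x ∈ P, (x, π x) ≠ (a, b) := by
              intro x hx h
              rcases hor x hx with h' | h'
              · rw [h] at h'
                exact g1 h'
              · obtain ⟨rfl, h4⟩ := Prod.mk.inj h
                rw [h4] at h'
                exact g2 h'
            have hb2 : ∀ x ∈ P, (π x, x) ≠ (a, b) := by
              intro x hx h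
              rcases hor x hx with h' | h'
              · obtain ⟨h4, rfl⟩ := Prod.mk.inj h
                rw [h4] at h'
                exact g2 h'
              · rw [h] at h'
                exact g1 h'
            refine ⟨legal_ins hL hab g1 g2, ?_, Or.inl ⟨hodd' _ g1, ?_, FF_ins hb1 hb2 hFF⟩⟩
            · rw [bp_ins hb1, gp_ins hb2]
              exact hE
            · intro z hz
              refine hT z (thr_ins ?_ hz)
              intro y hy
              obtain ⟨ha1, hbb1, _, _, _⟩ := hαβ y hy
              constructor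
              · intro h
                obtain ⟨rfl, rfl⟩ := Prod.mk.inj h
                rcases hd with hd | hd
                · exact hd ha1
                · exact dDQ hd hy
              · intro h
                obtain ⟨rfl, rfl⟩ := Prod.mk.inj h
                rcases hd with hd | hd
                · exact hd hbb1
                · exact dDQ hd hy
          by_cases hvD : v ∈ D
          · exact ⟨v, u, huv.symm, h2, h1, key v u huv.symm h2 h1 (Or.inr hvD)⟩
          · exact ⟨u, v, huv, h1, h2, key u v huv h1 h2 (Or.inl hvD)⟩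
      · -- one threat
        obtain ⟨hvQ, _, hnα, hnβ⟩ := id hv
        obtain ⟨ha1, hb1, _, ha2, hb2⟩ := hαβ v hvQ
        have key : ∀ a : V, (a = α v ∨ a = β v) → a ∈ D → H.Adj a v → (a, v) ∉ A → (v, a) ∉ A →
            insert (a, v) A ∈ Pos H P Q π α β := by
          intro a hav haD hadj g1 g2
          have hbp : ∀ x ∈ P, (x, π x) ≠ (a, v) := by
            intro x hx h
            obtain ⟨rfl, _⟩ := Prod.mk.inj h
            exact dDP haD hx
          have hgp : ∀ x ∈ P, (π x, x) ≠ (a, v) := by
            intro x hx h
            obtain ⟨_, rfl⟩ := Prod.mk.inj h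
            exact dPQ hx hvQ
          refine ⟨legal_ins hL hadj g1 g2, ?_, Or.inl ⟨hodd' _ g1, ?_, FF_ins hbp hgp hF⟩⟩
          · rw [bp_ins hbp, gp_ins hgp]
            exact hE
          · intro z hz
            have hz' : Thr Q α β A z := by
              refine thr_ins ?_ hz
              intro y hy
              constructor
              · intro h
                obtain ⟨rfl, _⟩ := Prod.mk.inj h
                exact dDQ haD hy
              · intro h
                obtain ⟨rfl, _⟩ := Prod.mk.inj h
                exact dDQ haD hy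
            have hzv := huniq z hz'
            subst hzv
            rcases hav with rfl | rfl
            · exact hz.2.2.1 (Finset.mem_insert_self _ _)
            · exact hz.2.2.2 (Finset.mem_insert_self _ _)
        rcases hun with ⟨g1, g2⟩ | ⟨g1, g2⟩
        · exact ⟨α v, v, ha2, g1, g2, key _ (Or.inl rfl) ha1 ha2 g1 g2⟩
        · exact ⟨β v, v, hb2, g1, g2, key _ (Or.inr rfl) hb1 hb2 g1 g2⟩
    · -- Maximizer moves
      intro _ hoddA u v huv h1 h2
      rcases hA with ⟨_, hT, hF⟩ | ⟨heven, _⟩
      swap
      · exact absurd heven (Nat.not_even_iff_odd.2 hoddA)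
      have heven' : Even (insert (u, v) A).card := by
        rw [Finset.card_insert_of_notMem h1]
        exact hoddA.add_one
      refine ⟨legal_ins hL huv h1 h2, ?_, Or.inr ⟨heven', ?_⟩⟩
      · -- balance
        by_cases hbad : ∃ x ∈ P, (x, π x) = (u, v)
        · obtain ⟨x, hx, hxe⟩ := hbad
          obtain ⟨rfl, rfl⟩ := Prod.mk.inj hxe
          have hlt := bp_gp_lt hL hx h1 h2
          have hF' : (bp P π A).card + 1 ≤ (gp P π A).card := by
            rcases hF with hF | hF
            · exact hF
            · omega
          have e1 : (bp P π (insert (x, π x) A)).card ≤ (bp P π A).card + 1 := by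
            have hsub : bp P π (insert (x, π x) A) ⊆ insert x (bp P π A) := by
              intro y hy
              unfold bp at hy ⊢
              rw [Finset.mem_filter, Finset.mem_insert] at hy
              rw [Finset.mem_insert, Finset.mem_filter]
              rcases hy.2 with h | h
              · exact Or.inl (Prod.mk.inj h).1
              · exact Or.inr ⟨hy.1, h⟩
            exact (Finset.card_le_card hsub).trans (Finset.card_insert_le _ _)
          have e2 : (gp P π A).card ≤ (gp P π (insert (x, π x) A)).card := by
            apply Finset.card_le_card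
            intro y hy
            unfold gp at hy ⊢
            rw [Finset.mem_filter] at hy ⊢
            exact ⟨hy.1, Finset.mem_insert_of_mem hy.2⟩
          omega
        · push Not at hbad
          rw [bp_ins (fun x hx => hbad x hx)]
          refine hE.trans (Finset.card_le_card ?_)
          intro y hy
          unfold gp at hy ⊢
          rw [Finset.mem_filter] at hy ⊢
          exact ⟨hy.1, Finset.mem_insert_of_mem hy.2⟩
      · by_cases hthr : ∃ z, Thr Q α β (insert (u, v) A) z
        swap
        · left
          intro z hz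
          exact hthr ⟨z, hz⟩
        right
        obtain ⟨z, hz⟩ := hthr
        -- the new arc starts at every threat
        have hstart : ∀ y, Thr Q α β (insert (u, v) A) y → y = u ∧ (α y = v ∨ β y = v) := by
          intro y hy
          by_contra hcon
          apply hT y
          obtain ⟨g1, g2, g3, g4⟩ := hy
          refine ⟨g1, ?_, fun h' => g3 (Finset.mem_insert_of_mem h'),
            fun h' => g4 (Finset.mem_insert_of_mem h')⟩
          rcases g2 with g2 | g2
          · rw [Finset.mem_insert] at g2
            rcases g2 with g2 | g2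
            · exfalso
              apply hcon
              exact ⟨(Prod.mk.inj g2).1, Or.inl (Prod.mk.inj g2).2⟩
            · exact Or.inl g2
          · rw [Finset.mem_insert] at g2
            rcases g2 with g2 | g2
            · exfalso
              apply hcon
              exact ⟨(Prod.mk.inj g2).1, Or.inr (Prod.mk.inj g2).2⟩
            · exact Or.inr g2
        obtain ⟨hzu, hzv⟩ := hstart z hz
        refine ⟨z, hz, fun y hy => (hstart y hy).1.trans hzu.symm, ?_, ?_⟩
        · subst hzu
          obtain ⟨hzQ, _, g3, g4⟩ := hz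
          obtain ⟨ha1, hb1, hne, ha2, hb2⟩ := hαβ z hzQ
          rcases hzv with rfl | rfl
          · right
            refine ⟨g4, ?_⟩
            rw [Finset.mem_insert]
            rintro (h | h)
            · exact hne (Prod.mk.inj h).2.symm
            · exact hT z ⟨hzQ, Or.inr h, fun h' => g3 (Finset.mem_insert_of_mem h'),
                fun h' => g4 (Finset.mem_insert_of_mem h')⟩
          · left
            refine ⟨g3, ?_⟩
            rw [Finset.mem_insert]
            rintro (h | h)
            · exact hne (Prod.mk.inj h).2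
            · exact hT z ⟨hzQ, Or.inl h, fun h' => g3 (Finset.mem_insert_of_mem h'),
                fun h' => g4 (Finset.mem_insert_of_mem h')⟩
        · subst hzu
          have hzQ := hz.1
          apply FF_ins _ _ hF
          · intro x hx h
            obtain ⟨rfl, _⟩ := Prod.mk.inj h
            exact dPQ hx hzQ
          · intro x hx h
            obtain ⟨h5, _⟩ := Prod.mk.inj h
            have := (hπ x hx).1
            rw [h5] at this
            exact dDQ this hzQ

theorem t_GAME : S_GAME :=
  fun V _ _ H D P Q W R π α β m k hc hDP hDQ hPQ hπ hαβ hm hk =>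
    game V H D P Q W R π α β m k hc hDP hDQ hPQ hπ hαβ hm hk

end Pool.Agent.Run7.h828.OG
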