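import Mathlib
import Pool.Agent.Run7.h723.OG.Iface

set_option autoImplicit false

/-! Piece AVG of project OG (helper723): the sampling lemma. -/

namespace Pool.Agent.Run7.h828.OG

open Pool.H723.OG

section
variable {V : Type} [Fintype V] [DecidableEq V]

/-- sum over all maps of a product -/
theorem sum_maps_prod (f : V → Fin 4 → ℝ) :
    (∑ χ : V → Fin 4, ∏ u, f u (χ u)) = ∏ u, ∑ c : Fin 4, f u c := by
  rw [Finset.prod_univ_sum, Fintype.piFinset_univ]

theorem sum_maps_const (c : ℝ) :
    (∑ _χ : V → Fin 4, c) = (4 : ℝ) ^ Fintype.card V * c := by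
  rw [Finset.sum_const, Finset.card_univ, Fintype.card_fun, Fintype.card_fin, nsmul_eq_mul]
  push_cast
  ring

theorem sum_maps_zero (u : V) :
    (∑ χ : V → Fin 4, (if χ u = 0 then (1 : ℝ) else 0)) = (4 : ℝ) ^ Fintype.card V * (1 / 4) := by
  have h1 : ∀ χ : V → Fin 4, (if χ u = 0 then (1 : ℝ) else 0) =
      ∏ w, (if w = u then (if χ w = 0 then (1 : ℝ) else 0) else 1) := by
    intro χ
    rw [Finset.prod_ite_eq' Finset.univ u (fun w => if χ w = 0 then (1 : ℝ) else 0)]
    simp
  rw [Finset.sum_congr rfl (fun χ _ => h1 χ)]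
  rw [sum_maps_prod (fun w c => if w = u then (if c = 0 then (1 : ℝ) else 0) else 1)]
  have h2 : ∀ w : V, (∑ c : Fin 4, (if w = u then (if c = 0 then (1 : ℝ) else 0) else 1)) =
      4 * (if w = u then (1 / 4 : ℝ) else 1) := by
    intro w
    by_cases h : w = u
    · simp [h]
    · simp [h]
  rw [Finset.prod_congr rfl (fun w _ => h2 w), Finset.prod_mul_distrib, Finset.prod_const,
    Finset.card_univ, Finset.prod_ite_eq' Finset.univ u (fun _ => (1 / 4 : ℝ))]
  simp

open Classical in
theorem sum_maps_nb (G : SimpleGraph V) (v : V) :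
    (∑ χ : V → Fin 4, (1 / 2 : ℝ) ^ (nb G (Finset.univ.filter (fun u => χ u = 0)) v)) =
      (4 : ℝ) ^ Fintype.card V * (7 / 8 : ℝ) ^ (dg G v) := by
  have h1 : ∀ χ : V → Fin 4,
      (1 / 2 : ℝ) ^ (nb G (Finset.univ.filter (fun u => χ u = 0)) v) =
      ∏ u, (if G.Adj u v ∧ χ u = 0 then (1 / 2 : ℝ) else 1) := by
    intro χ
    rw [← Finset.prod_filter, Finset.prod_const]
    congr 1
    unfold nb
    rw [Finset.filter_filter]
    congr 1
    ext w
    simp [and_comm]
  rw [Finset.sum_congr rfl (fun χ _ => h1 χ)]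
  rw [sum_maps_prod (fun u c => if G.Adj u v ∧ c = 0 then (1 / 2 : ℝ) else 1)]
  have h2 : ∀ u : V, (∑ c : Fin 4, (if G.Adj u v ∧ c = 0 then (1 / 2 : ℝ) else 1)) =
      4 * (if G.Adj u v then (7 / 8 : ℝ) else 1) := by
    intro u
    by_cases h : G.Adj u v
    · have e2 : ¬ ((2 : Fin 4) = 0) := by decide
      have e3 : ¬ ((3 : Fin 4) = 0) := by decide
      have e1 : ¬ ((1 : Fin 4) = 0) := by decide
      simp only [h, true_and, if_true]
      rw [Fin.sum_univ_four]
      rw [if_neg e1, if_neg e2, if_neg e3, if_pos rfl]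
      norm_num
    · simp [h]
  rw [Finset.prod_congr rfl (fun w _ => h2 w), Finset.prod_mul_distrib, Finset.prod_const,
    Finset.card_univ, ← Finset.prod_filter, Finset.prod_const]
  rfl

open Classical in
theorem cost_le (G : SimpleGraph V) (D : Finset V) :
    (cost2 G D : ℝ) / 2 ≤ (D.card : ℝ) + ∑ v, (1 / 2 : ℝ) ^ (nb G D v) := by
  have h0 : ((lev G D 0).card : ℝ) = ∑ v, (if v ∉ D ∧ nb G D v = 0 then (1 : ℝ) else 0) := by
    unfold lev
    rw [Finset.card_filter]
    push_cast
    rfl
  have h1 : ((lev G D 1).card : ℝ) = ∑ v, (if v ∉ D ∧ nb G D v = 1 then (1 : ℝ) else 0) := by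
    unfold lev
    rw [Finset.card_filter]
    push_cast
    rfl
  have h2 : ((lev G D 0).card : ℝ) + ((lev G D 1).card : ℝ) / 2 ≤
      ∑ v, (1 / 2 : ℝ) ^ (nb G D v) := by
    rw [h0, h1, Finset.sum_div, ← Finset.sum_add_distrib]
    apply Finset.sum_le_sum
    intro v _
    have hp : (0 : ℝ) ≤ (1 / 2 : ℝ) ^ (nb G D v) := by positivity
    by_cases hv : v ∉ D
    · by_cases ha : nb G D v = 0
      · simp [hv, ha]
      · by_cases hb : nb G D v = 1
        · simp [hv, hb]
        · simp only [ha, hb, and_false, if_false]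
          linarith
    · simp only [hv, false_and, if_false]
      linarith
  have h3 : (cost2 G D : ℝ) / 2 =
      (D.card : ℝ) + (((lev G D 0).card : ℝ) + ((lev G D 1).card : ℝ) / 2) := by
    unfold cost2
    push_cast
    ring
  rw [h3]
  linarith

end

open Classical in
theorem t_AVG : S_AVG := by
  intro V _ _ G
  have key : (∑ χ : V → Fin 4, (cost2 G (Finset.univ.filter (fun u => χ u = 0)) : ℝ) / 2) ≤
      ∑ _χ : V → Fin 4, ((Fintype.card V : ℝ) / 4 + ∑ v, (7 / 8 : ℝ) ^ (dg G v)) := by
    calc (∑ χ : V → Fin 4, (cost2 G (Finset.univ.filter (fun u => χ u = 0)) : ℝ) / 2)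
        ≤ ∑ χ : V → Fin 4, (((Finset.univ.filter (fun u => χ u = 0)).card : ℝ) +
            ∑ v, (1 / 2 : ℝ) ^ (nb G (Finset.univ.filter (fun u => χ u = 0)) v)) := by
          apply Finset.sum_le_sum
          intro χ _
          exact cost_le G _
      _ = (4 : ℝ) ^ Fintype.card V * ((Fintype.card V : ℝ) / 4) +
            (4 : ℝ) ^ Fintype.card V * ∑ v, (7 / 8 : ℝ) ^ (dg G v) := by
          rw [Finset.sum_add_distrib]
          congr 1
          · have : ∀ χ : V → Fin 4, ((Finset.univ.filter (fun u => χ u = 0)).card : ℝ) =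
                ∑ u, (if χ u = 0 then (1 : ℝ) else 0) := by
              intro χ
              rw [Finset.card_filter]
              push_cast
              rfl
            rw [Finset.sum_congr rfl (fun χ _ => this χ), Finset.sum_comm,
              Finset.sum_congr rfl (fun u _ => sum_maps_zero u), Finset.sum_const,
              Finset.card_univ, nsmul_eq_mul]
            ring
          · rw [Finset.sum_comm, Finset.sum_congr rfl (fun v _ => sum_maps_nb G v),
              Finset.mul_sum]
      _ = ∑ _χ : V → Fin 4, ((Fintype.card V : ℝ) / 4 + ∑ v, (7 / 8 : ℝ) ^ (dg G v)) := by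
          rw [sum_maps_const]
          ring
  obtain ⟨χ, -, hχ⟩ := Finset.exists_le_of_sum_le Finset.univ_nonempty key
  exact ⟨_, hχ⟩

end Pool.Agent.Run7.h828.OG
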