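import Mathlib
import Pool.Agent.Run7.h723.OG.Iface

set_option autoImplicit false

/-! Piece CUT of project OG (helper723): a maximum cut. -/

namespace Pool.Agent.Run7.h828.OG

open Pool.H723.OG

section
variable {V : Type} [Fintype V] [DecidableEq V]

open Classical in
noncomputable def cutv (G : SimpleGraph V) (A : Finset V) : ℕ :=
  ∑ v ∈ Aᶜ, ∑ u ∈ A, (if G.Adj u v then 1 else 0)

open Classical in
omit [Fintype V] [DecidableEq V] in
theorem nb_sum (G : SimpleGraph V) (A : Finset V) (v : V) :
    nb G A v = ∑ u ∈ A, (if G.Adj u v then 1 else 0) := by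
  unfold nb
  rw [Finset.card_filter]

theorem cutv_compl (G : SimpleGraph V) (A : Finset V) : cutv G Aᶜ = cutv G A := by
  classical
  unfold cutv
  rw [compl_compl, Finset.sum_comm]
  apply Finset.sum_congr rfl
  intro v _
  apply Finset.sum_congr rfl
  intro u _
  by_cases h : G.Adj u v
  · rw [if_pos h, if_pos h.symm]
  · rw [if_neg h, if_neg (fun h' => h h'.symm)]

theorem nb_add (G : SimpleGraph V) (A : Finset V) (v : V) :
    nb G A v + nb G Aᶜ v = dg G v := by
  classical
  rw [nb_sum, nb_sum, Finset.sum_add_sum_compl]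
  unfold dg
  rw [Finset.card_filter]

theorem cutv_insert (G : SimpleGraph V) (A : Finset V) (v : V) (hv : v ∉ A) :
    cutv G (insert v A) + nb G A v = cutv G A + nb G Aᶜ v := by
  classical
  have hv' : v ∈ Aᶜ := by simpa using hv
  have h1 : (insert v A)ᶜ = Aᶜ.erase v := by
    ext w
    simp [Finset.mem_erase]
  have h2 : cutv G (insert v A) =
      (∑ w ∈ Aᶜ.erase v, ∑ u ∈ A, (if G.Adj u w then 1 else 0)) +
      ∑ w ∈ Aᶜ.erase v, (if G.Adj v w then 1 else 0) := by
    unfold cutv
    rw [h1, ← Finset.sum_add_distrib]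
    apply Finset.sum_congr rfl
    intro w _
    rw [Finset.sum_insert hv, add_comm]
  have h3 : cutv G A = (∑ w ∈ Aᶜ.erase v, ∑ u ∈ A, (if G.Adj u w then 1 else 0)) + nb G A v := by
    unfold cutv
    rw [nb_sum]
    exact (Finset.sum_erase_add _ _ hv').symm
  have h4 : (∑ w ∈ Aᶜ.erase v, (if G.Adj v w then 1 else 0)) = nb G Aᶜ v := by
    rw [nb_sum, ← Finset.sum_erase_add _ _ hv', if_neg (G.irrefl), add_zero]
    apply Finset.sum_congr rfl
    intro u _
    by_cases h : G.Adj u v
    · rw [if_pos h, if_pos h.symm]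
    · rw [if_neg h, if_neg (fun h' => h h'.symm)]
  rw [h2, h3, h4]
  ring

theorem cut_half (G : SimpleGraph V) (A : Finset V) (hmax : ∀ B, cutv G B ≤ cutv G A)
    (v : V) (hv : v ∉ A) : dg G v ≤ 2 * nb G A v := by
  have h1 := cutv_insert G A v hv
  have h2 := hmax (insert v A)
  have h3 := nb_add G A v
  omega

end

theorem t_CUT : S_CUT := by
  classical
  intro V _ _ G
  obtain ⟨A, -, hA⟩ := Finset.exists_max_image (Finset.univ : Finset (Finset V)) (cutv G)
    Finset.univ_nonempty
  have hmax : ∀ B, cutv G B ≤ cutv G A := fun B => hA B (Finset.mem_univ _)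
  refine ⟨A, fun v hv => cut_half G A hmax v hv, fun v hv => ?_⟩
  refine cut_half G Aᶜ (fun B => ?_) v (by simpa using hv)
  rw [cutv_compl]
  exact hmax B

end Pool.Agent.Run7.h828.OG
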