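import Mathlib
import Pool.Agent.Run7.h723.OG.Iface

set_option autoImplicit false

/-! Piece DEG of project OG (helper723): counting the edges at a triple. -/

namespace Pool.Agent.Run7.h828.OG

open Pool.H723.OG

section
variable {V : Type} [Fintype V] [DecidableEq V]

open Classical in
omit [DecidableEq V] in
theorem sum_nb (G : SimpleGraph V) (D : Finset V) :
    (∑ v, nb G D v) = ∑ u ∈ D, dg G u := by
  have h1 : ∀ v, nb G D v = ∑ u ∈ D, (if G.Adj u v then 1 else 0) := by
    intro v
    unfold nb
    rw [Finset.card_filter]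
  have h2 : ∀ u, dg G u = ∑ v, (if G.Adj u v then 1 else 0) := by
    intro u
    unfold dg
    rw [Finset.card_filter]
    apply Finset.sum_congr rfl
    intro w _
    by_cases h : G.Adj w u
    · rw [if_pos h, if_pos h.symm]
    · rw [if_neg h, if_neg (fun h' => h h'.symm)]
  rw [Finset.sum_congr rfl (fun v _ => h1 v), Finset.sum_congr rfl (fun u _ => h2 u),
    Finset.sum_comm]

theorem lev_le (G : SimpleGraph V) (D : Finset V) :
    3 * (lev G D 3).card + 2 * (lev G D 2).card ≤ ∑ v, nb G D v := by
  classical
  have h0 : ∀ j, (lev G D j).card = ∑ v, (if v ∉ D ∧ nb G D v = j then 1 else 0) := by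
    intro j
    rw [← Finset.card_filter]
    congr 1
    ext v
    simp [lev]
  rw [h0, h0, Finset.mul_sum, Finset.mul_sum, ← Finset.sum_add_distrib]
  apply Finset.sum_le_sum
  intro v _
  split_ifs <;> omega

end

theorem t_DEG : S_DEG := by
  classical
  intro V _ _ G x y z d hxy hxz hyz hx hy hz
  have h1 := lev_le G {x, y, z}
  have h2 := sum_nb G {x, y, z}
  have h3 : (∑ u ∈ ({x, y, z} : Finset V), dg G u) = dg G x + dg G y + dg G z := by
    rw [Finset.sum_insert (by simp [hxy, hxz]), Finset.sum_insert (by simp [hyz]),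
      Finset.sum_singleton]
    ring
  omega

end Pool.Agent.Run7.h828.OG
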