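import Mathlib
import Pool.Agent.Run7.h723.OG.Iface

set_option autoImplicit false

/-! Piece HALF of project OG (helper723). -/

namespace Pool.Agent.Run7.h828.OG

open Pool.H723.OG

section
variable {V : Type} [Fintype V] [DecidableEq V]

theorem lev_zero_empty (G : SimpleGraph V) (A : Finset V)
    (hG : ∀ v, ∃ u, G.Adj v u) (h : ∀ v, v ∉ A → dg G v ≤ 2 * nb G A v) :
    (lev G A 0).card = 0 := by
  classical
  rw [Finset.card_eq_zero, Finset.eq_empty_iff_forall_notMem]
  intro v hv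
  unfold lev at hv
  simp only [Finset.mem_filter, Finset.mem_univ, true_and] at hv
  have h1 := h v hv.1
  rw [hv.2] at h1
  obtain ⟨u, hu⟩ := hG v
  have h2 : 0 < dg G v := by
    unfold dg
    rw [Finset.card_pos]
    exact ⟨u, by simp [hu.symm]⟩
  omega

theorem lev_one_sub (G : SimpleGraph V) (A : Finset V)
    (h : ∀ v, v ∉ A → dg G v ≤ 2 * nb G A v) :
    lev G A 1 ⊆ low G 2 \ A := by
  classical
  intro v hv
  unfold lev at hv
  simp only [Finset.mem_filter, Finset.mem_univ, true_and] at hv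
  have h1 := h v hv.1
  rw [hv.2] at h1
  rw [Finset.mem_sdiff]
  refine ⟨?_, hv.1⟩
  unfold low
  rw [Finset.mem_filter]
  exact ⟨Finset.mem_univ _, by omega⟩

end

theorem t_HALF (hCOST : S_COST) (hCUT : S_CUT) : S_HALF := by
  classical
  intro V _ _ G hG
  obtain ⟨A, hA1, hA2⟩ := hCUT V G
  have hB : ∀ v, v ∉ Aᶜ → dg G v ≤ 2 * nb G Aᶜ v := by
    intro v hv
    exact hA2 v (by simpa using hv)
  have a0 := lev_zero_empty G A hG hA1
  have b0 := lev_zero_empty G Aᶜ hG hB
  have a1 := Finset.card_le_card (lev_one_sub G A hA1)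
  have b1 := Finset.card_le_card (lev_one_sub G Aᶜ hB)
  have e1 : (low G 2 \ A).card + (low G 2 \ Aᶜ).card = (low G 2).card := by
    have h2 : low G 2 \ Aᶜ = low G 2 ∩ A := by
      ext v
      simp
    rw [h2]
    exact Finset.card_sdiff_add_card_inter _ _
  have e2 : A.card + (Aᶜ).card = Fintype.card V := Finset.card_add_card_compl A
  have c1 : cost2 G A = 2 * A.card + 2 * (lev G A 0).card + (lev G A 1).card := rfl
  have c2 : cost2 G Aᶜ = 2 * (Aᶜ).card + 2 * (lev G Aᶜ 0).card + (lev G Aᶜ 1).card := rfl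
  rcases le_total (cost2 G A) (cost2 G Aᶜ) with hle | hle
  · exact ⟨cost2 G A / 2, hCOST V G A _ (by omega), by omega⟩
  · exact ⟨cost2 G Aᶜ / 2, hCOST V G Aᶜ _ (by omega), by omega⟩

end Pool.Agent.Run7.h828.OG
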