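import Mathlib
import Pool.Agent.Run7.h723.OG.Iface

set_option autoImplicit false

/-! Piece STAR of project OG (helper723): spanning star forests. -/

namespace Pool.Agent.Run7.h828.OG

/-- the result of the induction for a vertex set `S` -/
def SF {V : Type} [DecidableEq V] (G : SimpleGraph V) (S : Finset V) : Prop :=
  ∃ (D P W : Finset V) (π m : V → V),
    (∀ v, v ∈ S ↔ (v ∈ D ∨ v ∈ P ∨ v ∈ W)) ∧ Disjoint D P ∧ Disjoint D W ∧ Disjoint P W ∧
    (∀ v ∈ P, π v ∈ D ∧ G.Adj (π v) v) ∧
    (∀ w ∈ W, m w ∈ W ∧ m (m w) = w ∧ G.Adj w (m w)) ∧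
    2 * D.card ≤ P.card

/-- adding a matched pair -/
theorem sf_pair {V : Type} [DecidableEq V] (G : SimpleGraph V) (S : Finset V) (u v : V)
    (huv : G.Adj u v) (hu : u ∉ S) (hv : v ∉ S) (h : SF G S) : SF G (insert u (insert v S)) := by
  obtain ⟨D, P, W, π, m, hc, hDP, hDW, hPW, hπ, hm, hcard⟩ := h
  have huD : u ∉ D := fun h => hu ((hc u).2 (Or.inl h))
  have huP : u ∉ P := fun h => hu ((hc u).2 (Or.inr (Or.inl h)))
  have huW : u ∉ W := fun h => hu ((hc u).2 (Or.inr (Or.inr h)))
  have hvD : v ∉ D := fun h => hv ((hc v).2 (Or.inl h))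
  have hvP : v ∉ P := fun h => hv ((hc v).2 (Or.inr (Or.inl h)))
  have hvW : v ∉ W := fun h => hv ((hc v).2 (Or.inr (Or.inr h)))
  have hne : u ≠ v := huv.ne
  refine ⟨D, P, insert u (insert v W), π,
    fun x => if x = u then v else if x = v then u else m x, ?_, hDP, ?_, ?_, hπ, ?_, hcard⟩
  · intro x
    simp only [Finset.mem_insert, hc x]
    tauto
  · rw [Finset.disjoint_left]
    intro x hx hx'
    simp only [Finset.mem_insert] at hx'
    rcases hx' with rfl | rfl | hx'
    · exact huD hx
    · exact hvD hx
    · exact Finset.disjoint_left.1 hDW hx hx'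
  · rw [Finset.disjoint_left]
    intro x hx hx'
    simp only [Finset.mem_insert] at hx'
    rcases hx' with rfl | rfl | hx'
    · exact huP hx
    · exact hvP hx
    · exact Finset.disjoint_left.1 hPW hx hx'
  · intro w hw
    simp only [Finset.mem_insert] at hw
    rcases hw with rfl | rfl | hw
    · refine ⟨by simp, ?_, ?_⟩
      · simp only [if_true]
        rw [if_neg hne.symm]
      · simp only [if_true]
        exact huv
    · refine ⟨?_, ?_, ?_⟩
      · simp only [if_true]
        rw [if_neg hne.symm]
        simp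
      · simp only [if_true]
        rw [if_neg hne.symm]
        simp
      · simp only [if_true]
        rw [if_neg hne.symm]
        exact huv.symm
    · have hwu : w ≠ u := fun h => huW (h ▸ hw)
      have hwv : w ≠ v := fun h => hvW (h ▸ hw)
      obtain ⟨a1, a2, a3⟩ := hm w hw
      have hmu : m w ≠ u := fun h => huW (h ▸ a1)
      have hmv : m w ≠ v := fun h => hvW (h ▸ a1)
      simp only [if_neg hwu, if_neg hwv, if_neg hmu, if_neg hmv]
      exact ⟨by simp [a1], a2, a3⟩

/-- adding a star with centre `u` and leaf set `L`, at least two leaves -/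
theorem sf_star {V : Type} [DecidableEq V] (G : SimpleGraph V) (S : Finset V) (u : V)
    (L : Finset V) (hL : 2 ≤ L.card) (hadj : ∀ x ∈ L, G.Adj u x) (hu : u ∉ S)
    (hLS : Disjoint L S) (h : SF G S) : SF G (insert u (L ∪ S)) := by
  obtain ⟨D, P, W, π, m, hc, hDP, hDW, hPW, hπ, hm, hcard⟩ := h
  have huD : u ∉ D := fun h => hu ((hc u).2 (Or.inl h))
  have huP : u ∉ P := fun h => hu ((hc u).2 (Or.inr (Or.inl h)))
  have huW : u ∉ W := fun h => hu ((hc u).2 (Or.inr (Or.inr h)))
  have huL : u ∉ L := fun h => (hadj u h).ne rfl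
  have hLD : ∀ x ∈ L, x ∉ D := fun x hx h =>
    Finset.disjoint_left.1 hLS hx ((hc x).2 (Or.inl h))
  have hLP : ∀ x ∈ L, x ∉ P := fun x hx h =>
    Finset.disjoint_left.1 hLS hx ((hc x).2 (Or.inr (Or.inl h)))
  have hLW : ∀ x ∈ L, x ∉ W := fun x hx h =>
    Finset.disjoint_left.1 hLS hx ((hc x).2 (Or.inr (Or.inr h)))
  refine ⟨insert u D, L ∪ P, W, fun x => if x ∈ L then u else π x, m, ?_, ?_, ?_, ?_, ?_, hm, ?_⟩
  · intro x
    simp only [Finset.mem_insert, Finset.mem_union, hc x]
    tauto
  · rw [Finset.disjoint_left]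
    intro x hx hx'
    rw [Finset.mem_insert] at hx
    rw [Finset.mem_union] at hx'
    rcases hx with rfl | hx
    · rcases hx' with hx' | hx'
      · exact huL hx'
      · exact huP hx'
    · rcases hx' with hx' | hx'
      · exact hLD x hx' hx
      · exact Finset.disjoint_left.1 hDP hx hx'
  · rw [Finset.disjoint_left]
    intro x hx hx'
    rw [Finset.mem_insert] at hx
    rcases hx with rfl | hx
    · exact huW hx'
    · exact Finset.disjoint_left.1 hDW hx hx'
  · rw [Finset.disjoint_left]
    intro x hx hx'
    rw [Finset.mem_union] at hx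
    rcases hx with hx | hx
    · exact hLW x hx hx'
    · exact Finset.disjoint_left.1 hPW hx hx'
  · intro x hx
    rw [Finset.mem_union] at hx
    by_cases hxL : x ∈ L
    · simp only [if_pos hxL]
      exact ⟨by simp, hadj x hxL⟩
    · simp only [if_neg hxL]
      rcases hx with hx | hx
      · exact absurd hx hxL
      · exact ⟨by simp [(hπ x hx).1], (hπ x hx).2⟩
  · have hdis : Disjoint L P := Finset.disjoint_left.2 hLP
    rw [Finset.card_union_of_disjoint hdis, Finset.card_insert_of_notMem huD]
    omega

/-- adding a star with centre `u` and leaf set `L`, at least one leaf -/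
theorem sf_star1 {V : Type} [DecidableEq V] (G : SimpleGraph V) (S : Finset V) (u : V)
    (L : Finset V) (hL : 1 ≤ L.card) (hadj : ∀ x ∈ L, G.Adj u x) (hu : u ∉ S)
    (hLS : Disjoint L S) (h : SF G S) : SF G (insert u (L ∪ S)) := by
  by_cases h2 : 2 ≤ L.card
  · exact sf_star G S u L h2 hadj hu hLS h
  · have h1 : L.card = 1 := by omega
    obtain ⟨x, rfl⟩ := Finset.card_eq_one.1 h1
    have hx : x ∉ S := Finset.disjoint_left.1 hLS (Finset.mem_singleton_self x)
    exact sf_pair G S u x (hadj x (Finset.mem_singleton_self x)) hu hx h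

theorem star_main {V : Type} [DecidableEq V] (G : SimpleGraph V) :
    ∀ (n : ℕ) (S : Finset V), S.card = n → (∀ x ∈ S, ∃ y ∈ S, G.Adj x y) → SF G S := by
  classical
  intro n
  induction n using Nat.strong_induction_on with
  | _ n ih =>
    intro S hn hS
    by_cases hem : S = ∅
    · subst hem
      exact ⟨∅, ∅, ∅, id, id, by simp, by simp, by simp, by simp, by simp, by simp, by simp⟩
    obtain ⟨u, hu⟩ := Finset.nonempty_iff_ne_empty.2 hem
    obtain ⟨v, hv, huv⟩ := hS u hu
    have hne : u ≠ v := huv.ne
    set T : Finset V := (S.erase u).erase v with hT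
    set I : Finset V := T.filter (fun x => ∀ y ∈ T, ¬ G.Adj x y) with hI
    set Iu : Finset V := I.filter (fun x => G.Adj u x) with hIu
    set Iv : Finset V := I.filter (fun x => ¬ G.Adj u x) with hIv
    set S' : Finset V := T \ I with hS'
    have hTmem : ∀ x, x ∈ T ↔ (x ≠ v ∧ x ≠ u ∧ x ∈ S) := by
      intro x
      rw [hT, Finset.mem_erase, Finset.mem_erase]
    have hIadj : ∀ x ∈ I, G.Adj u x ∨ G.Adj v x := by
      intro x hx
      rw [hI, Finset.mem_filter] at hx
      obtain ⟨hxT, hxn⟩ := hx
      obtain ⟨y, hy, hxy⟩ := hS x ((hTmem x).1 hxT).2.2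
      by_cases hyv : y = v
      · subst hyv
        exact Or.inr hxy.symm
      by_cases hyu : y = u
      · subst hyu
        exact Or.inl hxy.symm
      exact absurd hxy (hxn y ((hTmem y).2 ⟨hyv, hyu, hy⟩))
    have hIvadj : ∀ x ∈ Iv, G.Adj v x := by
      intro x hx
      rw [hIv, Finset.mem_filter] at hx
      rcases hIadj x hx.1 with h | h
      · exact absurd h hx.2
      · exact h
    have hIuadj : ∀ x ∈ Iu, G.Adj u x := fun x hx => (Finset.mem_filter.1 hx).2
    have hS'S : ∀ x ∈ S', x ∈ T ∧ x ∉ I := fun x hx => Finset.mem_sdiff.1 hx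
    have huS' : u ∉ S' := fun h => ((hTmem u).1 (hS'S u h).1).2.1 rfl
    have hvS' : v ∉ S' := fun h => ((hTmem v).1 (hS'S v h).1).1 rfl
    have huT : u ∉ T := fun h => ((hTmem u).1 h).2.1 rfl
    have hvT : v ∉ T := fun h => ((hTmem v).1 h).1 rfl
    have hIT : I ⊆ T := Finset.filter_subset _ _
    have hIuI : Iu ⊆ I := Finset.filter_subset _ _
    have hIvI : Iv ⊆ I := Finset.filter_subset _ _
    have hcardS' : S'.card < n := by
      rw [← hn]
      apply Finset.card_lt_card
      rw [Finset.ssubset_iff_of_subset]
      · exact ⟨u, hu, huS'⟩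
      · intro x hx
        exact ((hTmem x).1 (hS'S x hx).1).2.2
    have hS'iso : ∀ x ∈ S', ∃ y ∈ S', G.Adj x y := by
      intro x hx
      obtain ⟨hxT, hxI⟩ := hS'S x hx
      have : ∃ y ∈ T, G.Adj x y := by
        by_contra hcon
        push Not at hcon
        exact hxI (Finset.mem_filter.2 ⟨hxT, hcon⟩)
      obtain ⟨y, hy, hxy⟩ := this
      refine ⟨y, Finset.mem_sdiff.2 ⟨hy, ?_⟩, hxy⟩
      intro hyI
      exact (Finset.mem_filter.1 hyI).2 x hxT hxy.symm
    have hSF := ih S'.card hcardS' S' rfl hS'iso
    have hdisU : Disjoint Iu S' := by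
      rw [Finset.disjoint_left]
      intro x hx hx'
      exact (hS'S x hx').2 (hIuI hx)
    have hdisV : Disjoint Iv S' := by
      rw [Finset.disjoint_left]
      intro x hx hx'
      exact (hS'S x hx').2 (hIvI hx)
    by_cases hIuE : Iu = ∅
    · -- star with centre v, leaves Iv and u
      have hLadj : ∀ x ∈ insert u Iv, G.Adj v x := by
        intro x hx
        rw [Finset.mem_insert] at hx
        rcases hx with rfl | hx
        · exact huv.symm
        · exact hIvadj x hx
      have hdis : Disjoint (insert u Iv) S' := by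
        rw [Finset.disjoint_left]
        intro x hx hx'
        rw [Finset.mem_insert] at hx
        rcases hx with rfl | hx
        · exact huS' hx'
        · exact Finset.disjoint_left.1 hdisV hx hx'
      have h1 := sf_star1 G S' v (insert u Iv)
        (Finset.card_pos.2 ⟨u, Finset.mem_insert_self _ _⟩) hLadj hvS' hdis hSF
      have hEq : insert v (insert u Iv ∪ S') = S := by
        ext x
        simp only [Finset.mem_insert, Finset.mem_union]
        constructor
        · rintro (rfl | (rfl | hx) | hx)
          · exact hv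
          · exact hu
          · exact ((hTmem x).1 (hIT (hIvI hx))).2.2
          · exact ((hTmem x).1 (hS'S x hx).1).2.2
        · intro hx
          by_cases hxv : x = v
          · exact Or.inl hxv
          by_cases hxu : x = u
          · exact Or.inr (Or.inl (Or.inl hxu))
          have hxT : x ∈ T := (hTmem x).2 ⟨hxv, hxu, hx⟩
          by_cases hxI : x ∈ I
          · right; left; right
            rw [hIv, Finset.mem_filter]
            refine ⟨hxI, ?_⟩
            intro hux
            have : x ∈ Iu := Finset.mem_filter.2 ⟨hxI, hux⟩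
            rw [hIuE] at this
            exact absurd this (Finset.notMem_empty _)
          · exact Or.inr (Or.inr (Finset.mem_sdiff.2 ⟨hxT, hxI⟩))
      rw [hEq] at h1
      exact h1
    · obtain ⟨x0, hx0⟩ := Finset.nonempty_iff_ne_empty.2 hIuE
      by_cases hIvE : Iv = ∅
      · -- star with centre u, leaves Iu and v
        have hLadj : ∀ x ∈ insert v Iu, G.Adj u x := by
          intro x hx
          rw [Finset.mem_insert] at hx
          rcases hx with rfl | hx
          · exact huv
          · exact hIuadj x hx
        have hdis : Disjoint (insert v Iu) S' := by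
          rw [Finset.disjoint_left]
          intro x hx hx'
          rw [Finset.mem_insert] at hx
          rcases hx with rfl | hx
          · exact hvS' hx'
          · exact Finset.disjoint_left.1 hdisU hx hx'
        have h1 := sf_star1 G S' u (insert v Iu)
          (Finset.card_pos.2 ⟨v, Finset.mem_insert_self _ _⟩) hLadj huS' hdis hSF
        have hEq : insert u (insert v Iu ∪ S') = S := by
          ext x
          simp only [Finset.mem_insert, Finset.mem_union]
          constructor
          · rintro (rfl | (rfl | hx) | hx)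
            · exact hu
            · exact hv
            · exact ((hTmem x).1 (hIT (hIuI hx))).2.2
            · exact ((hTmem x).1 (hS'S x hx).1).2.2
          · intro hx
            by_cases hxu : x = u
            · exact Or.inl hxu
            by_cases hxv : x = v
            · exact Or.inr (Or.inl (Or.inl hxv))
            have hxT : x ∈ T := (hTmem x).2 ⟨hxv, hxu, hx⟩
            by_cases hxI : x ∈ I
            · right; left; right
              by_contra hcon
              have hnot : ¬ G.Adj u x := fun h => hcon (Finset.mem_filter.2 ⟨hxI, h⟩)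
              have : x ∈ Iv := Finset.mem_filter.2 ⟨hxI, hnot⟩
              rw [hIvE] at this
              exact absurd this (Finset.notMem_empty _)
            · exact Or.inr (Or.inr (Finset.mem_sdiff.2 ⟨hxT, hxI⟩))
        rw [hEq] at h1
        exact h1
      · obtain ⟨y0, hy0⟩ := Finset.nonempty_iff_ne_empty.2 hIvE
        -- two stars
        have h1 := sf_star1 G S' u Iu (Finset.card_pos.2 ⟨x0, hx0⟩) hIuadj huS' hdisU hSF
        have hv2 : v ∉ insert u (Iu ∪ S') := by
          simp only [Finset.mem_insert, Finset.mem_union, not_or]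
          exact ⟨hne.symm, fun h => hvT (hIT (hIuI h)), hvS'⟩
        have hdis2 : Disjoint Iv (insert u (Iu ∪ S')) := by
          rw [Finset.disjoint_left]
          intro x hx hx'
          simp only [Finset.mem_insert, Finset.mem_union] at hx'
          rcases hx' with rfl | hx' | hx'
          · exact huT (hIT (hIvI hx))
          · exact (Finset.mem_filter.1 hx).2 (Finset.mem_filter.1 hx').2
          · exact Finset.disjoint_left.1 hdisV hx hx'
        have h2 := sf_star1 G (insert u (Iu ∪ S')) v Iv (Finset.card_pos.2 ⟨y0, hy0⟩) hIvadj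
          hv2 hdis2 h1
        have hEq : insert v (Iv ∪ insert u (Iu ∪ S')) = S := by
          ext x
          simp only [Finset.mem_insert, Finset.mem_union]
          constructor
          · rintro (rfl | hx | rfl | hx | hx)
            · exact hv
            · exact ((hTmem x).1 (hIT (hIvI hx))).2.2
            · exact hu
            · exact ((hTmem x).1 (hIT (hIuI hx))).2.2
            · exact ((hTmem x).1 (hS'S x hx).1).2.2
          · intro hx
            by_cases hxv : x = v
            · exact Or.inl hxv
            by_cases hxu : x = u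
            · exact Or.inr (Or.inr (Or.inl hxu))
            have hxT : x ∈ T := (hTmem x).2 ⟨hxv, hxu, hx⟩
            by_cases hxI : x ∈ I
            · by_cases hux : G.Adj u x
              · exact Or.inr (Or.inr (Or.inr (Or.inl (Finset.mem_filter.2 ⟨hxI, hux⟩))))
              · exact Or.inr (Or.inl (Finset.mem_filter.2 ⟨hxI, hux⟩))
            · exact Or.inr (Or.inr (Or.inr (Or.inr (Finset.mem_sdiff.2 ⟨hxT, hxI⟩))))
        rw [hEq] at h2
        exact h2

theorem star (V : Type) [Fintype V] [DecidableEq V] (G : SimpleGraph V)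
    (h : ∀ v, ∃ u, G.Adj v u) :
    ∃ (D P W : Finset V) (π m : V → V),
      (∀ v, v ∈ D ∨ v ∈ P ∨ v ∈ W) ∧ Disjoint D P ∧ Disjoint D W ∧ Disjoint P W ∧
      (∀ v ∈ P, π v ∈ D ∧ G.Adj (π v) v) ∧
      (∀ w ∈ W, m w ∈ W ∧ m (m w) = w ∧ G.Adj w (m w)) ∧
      2 * D.card ≤ P.card := by
  obtain ⟨D, P, W, π, m, hc, h1, h2, h3, h4, h5, h6⟩ :=
    star_main G _ (Finset.univ : Finset V) rfl (fun x _ => by
      obtain ⟨u, hu⟩ := h x
      exact ⟨u, Finset.mem_univ _, hu⟩)
  exact ⟨D, P, W, π, m, fun v => (hc v).1 (Finset.mem_univ _), h1, h2, h3, h4, h5, h6⟩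

theorem t_STAR : Pool.H723.OG.S_STAR := fun V _ _ G h => star V G h

end Pool.Agent.Run7.h828.OG
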