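import Mathlib
import Pool.Agent.Run7.h723.OG.Iface

set_option autoImplicit false

/-! Piece TRI of project OG (helper723): a triple as centre set in the complement. -/

namespace Pool.Agent.Run7.h828.OG

open Pool.H723.OG

section
variable {V : Type} [Fintype V] [DecidableEq V]

omit [Fintype V] [DecidableEq V] in
theorem nb_compl (G : SimpleGraph V) (D : Finset V) (v : V) (hv : v ∉ D) :
    nb G D v + nb Gᶜ D v = D.card := by
  classical
  have h1 : D.filter (fun u => Gᶜ.Adj u v) = D.filter (fun u => ¬ G.Adj u v) := by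
    apply Finset.filter_congr
    intro u hu
    have hne : u ≠ v := fun h => hv (h ▸ hu)
    rw [SimpleGraph.compl_adj]
    exact ⟨fun h => h.2, fun h => ⟨hne, h⟩⟩
  have h2 : nb Gᶜ D v = (D.filter (fun u => ¬ G.Adj u v)).card := by
    rw [← h1]
    unfold nb
    congr
  have h3 : nb G D v = (D.filter (fun u => G.Adj u v)).card := by
    unfold nb
    congr
  rw [h2, h3]
  exact Finset.card_filter_add_card_filter_not (fun u => G.Adj u v)

theorem lev_compl (G : SimpleGraph V) (D : Finset V) (i j : ℕ) (h : i + j = D.card) :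
    lev Gᶜ D i = lev G D j := by
  classical
  ext v
  simp only [lev, Finset.mem_filter, Finset.mem_univ, true_and]
  constructor
  · rintro ⟨h1, h2⟩
    have h3 := nb_compl G D v h1
    exact ⟨h1, by omega⟩
  · rintro ⟨h1, h2⟩
    have h3 := nb_compl G D v h1
    exact ⟨h1, by omega⟩

end

theorem t_TRI (hCOST : S_COST) : S_TRI := by
  classical
  intro V _ _ G x y z t hxy hxz hyz h
  have hc : ({x, y, z} : Finset V).card = 3 := by
    rw [Finset.card_eq_three]
    exact ⟨x, y, z, hxy, hxz, hyz, rfl⟩
  apply hCOST V Gᶜ {x, y, z} (3 + t)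
  have e0 := lev_compl G {x, y, z} 0 3 (by rw [hc])
  have e1 := lev_compl G {x, y, z} 1 2 (by rw [hc])
  unfold cost2
  rw [e0, e1, hc]
  omega

end Pool.Agent.Run7.h828.OG
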